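import Mathlib
import Pool.Agent.Lead.Clr3

namespace Pool.Agent.Results.MP_b0da28_lc.Q1
open Set Pool.Agent.Lead

theorem result : ∃ E : (ℕ → ℕ) → (ℕ → ℕ) → Prop, Equivalence E ∧
    IsClosed {z : (ℕ → ℕ) × (ℕ → ℕ) | E z.1 z.2} ∧
    (∃ (Z : Type) (_ : TopologicalSpace Z), PolishSpace Z ∧ ∃ g : (ℕ → ℕ) → Z,
      @Measurable _ _ (borel _) (borel _) g ∧ ∀ x x', E x x' ↔ g x = g x') ∧
    ¬ ∃ f : (ℕ → ℕ) → (ℕ → (ℕ → ℕ)), Continuous f ∧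
      ∀ x x', E x x' ↔ range (f x) = range (f x') := by
  obtain ⟨E, h1, h2, ⟨g, h3, h4⟩, h5⟩ := Clr3.main
  refine ⟨E, h1, h2, ⟨_, inferInstance, inferInstance, g, ?_, h4⟩, h5⟩
  rw [← BorelSpace.measurable_eq, ← BorelSpace.measurable_eq]
  exact h3

end Pool.Agent.Results.MP_b0da28_lc.Q1
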